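import Mathlib

namespace Pool.Agent.Results.MP_615e1a_lc.Full

open FirstOrder FirstOrder.Language

universe u v w

/-- every copy of `M` whose elements are `n`-element sets has a substructure isomorphic to it that is a sunflower -/
def Sunflowerable (L : FirstOrder.Language.{u, v}) (M : Type w) [L.Structure M] (n : ℕ) : Prop :=
  ∀ (X : Type w) (Y : Set (Finset X)) [L.Structure Y], (∀ y ∈ Y, y.card = n) → Nonempty (Y ≃[L] M) →
    ∃ Z : L.Substructure Y, Nonempty (Z ≃[L] Y) ∧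
      ∃ r : Set X, ∀ p ∈ Z, ∀ q ∈ Z, p ≠ q → (p.1 : Set X) ∩ (q.1 : Set X) = r

theorem result (L : FirstOrder.Language.{u, v}) (M : Type w) [L.Structure M] [Infinite M] (h : Sunflowerable L M 2) (n : ℕ) :
    Sunflowerable L M n := by
  classical
  have k : ∀ (X : Type w) (s t : M → X), (∀ a, s a ≠ t a) → (Function.Injective fun a => ({s a, t a} : Finset X)) →
      ∃ e : M ↪[L] M, ∃ r : Set X, ∀ a b, a ≠ b → ({s (e a), t (e a)} : Set X) ∩ {s (e b), t (e b)} = r := by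
    intro X s t d i
    let g := Equiv.ofInjective _ i
    let _ : L.Structure (Set.range fun a => ({s a, t a} : Finset X)) := g.inducedStructure
    let φ := g.inducedStructureEquiv (L := L)
    obtain ⟨Z, ⟨ψ⟩, r, z⟩ := h X _ (by rintro _ ⟨a, rfl⟩; exact Finset.card_pair (d a)) ⟨φ.symm⟩
    refine ⟨φ.symm.toEmbedding.comp (Z.subtype.comp (ψ.symm.toEmbedding.comp φ.toEmbedding)), r, fun a b e => ?_⟩
    have y : ∀ x, ((x.1 : Finset X) : Set X) = {s (φ.symm x), t (φ.symm x)} := fun x => by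
      obtain ⟨c, rfl⟩ := φ.surjective x
      rw [φ.symm_apply_apply]
      exact Finset.coe_pair
    have := z _ (ψ.symm (φ a)).2 _ (ψ.symm (φ b)).2 fun x => e (φ.injective (ψ.symm.injective (Subtype.ext x)))
    rw [y, y] at this
    exact this
  have c1 : ∀ (X : Type w) (s : M → X), ∃ e : M ↪[L] M, (∃ x, ∀ a, s (e a) = x) ∨
      ∀ a b, a ≠ b → s (e a) ≠ s (e b) := fun X s => by
    obtain ⟨e, r, z⟩ := k (X ⊕ M) (fun a => .inl (s a)) .inr (by simp) fun a b e => by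
      simpa using Finset.ext_iff.1 e (.inr a)
    refine ⟨e, or_iff_not_imp_right.2 fun x => ?_⟩
    push Not at x
    obtain ⟨a, b, x, y⟩ := x
    have m : Sum.inl (s (e a)) ∈ r := by rw [← z a b x]; simp [y]
    refine ⟨s (e a), fun c => ?_⟩
    by_cases q : c = a
    · rw [q]
    · rw [← z c a q] at m; simpa [eq_comm] using m.1
  have c2 : ∀ (X : Type w) [LinearOrder X] (s t : M → X), (∀ a, s a < t a) → ∃ e : M ↪[L] M,
      (∃ x, ∀ a, s (e a) = x) ∨ (∃ x, ∀ a, t (e a) = x) ∨ ∀ a b, a ≠ b → s (e a) ≠ t (e b) := fun X _ s t l => by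
    obtain ⟨e, x | x⟩ := c1 X s
    · exact ⟨e, Or.inl x⟩
    obtain ⟨e', y | y⟩ := c1 X (t ∘ e)
    · exact ⟨e.comp e', Or.inr (Or.inl y)⟩
    have x' : ∀ a b, a ≠ b → s (e (e' a)) ≠ s (e (e' b)) := fun a b q => x _ _ (e'.injective.ne q)
    obtain ⟨d, r, z⟩ := k X (fun a => s (e (e' a))) (fun a => t (e (e' a))) (fun a => (l _).ne) fun a b q => by
      by_contra p
      have q1 := (Finset.ext_iff.1 q (s (e (e' a)))).1 (by simp)
      have q2 := (Finset.ext_iff.1 q (s (e (e' b)))).2 (by simp)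
      simp only [Finset.mem_insert, Finset.mem_singleton, x' a b p, x' b a (Ne.symm p), false_or] at q1 q2
      exact absurd (((l _).trans_eq q2.symm).trans ((l _).trans_eq q1.symm)) (lt_irrefl _)
    refine ⟨e.comp (e'.comp d), Or.inr (Or.inr fun a b q p => ?_)⟩
    obtain ⟨c, hc⟩ := Infinite.exists_notMem_finset ({a, b} : Finset M)
    simp only [Finset.mem_insert, Finset.mem_singleton, not_or] at hc
    have m : s (e (e' (d a))) ∈ r := by rw [← z a b q]; exact ⟨Or.inl rfl, Or.inr p⟩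
    rw [← z c a hc.1] at m
    rcases m.1 with m | m
    · exact x' _ _ (d.injective.ne hc.1) m.symm
    · exact y _ _ (d.injective.ne hc.2) (m.symm.trans p)
  rintro X Y _ hY ⟨φ⟩
  obtain ⟨_, -⟩ := exists_wellFoundedLT X
  obtain ⟨c, hc⟩ : ∃ c : M → Fin n ↪o X, ∀ a, Set.range (c a) = (φ.symm a).1 :=
    ⟨fun a => (φ.symm a).1.orderEmbOfFin (hY _ (φ.symm a).2), fun a => Finset.range_orderEmbOfFin _ _⟩
  have : ∀ I : Finset (Fin n × Fin n), ∃ e : M ↪[L] M, ∀ p ∈ I, p.1 ≤ p.2 → (∃ x, ∀ a, c (e a) p.1 = x) ∨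
      (∃ x, ∀ a, c (e a) p.2 = x) ∨ ∀ a b, a ≠ b → c (e a) p.1 ≠ c (e b) p.2 := fun I => by
    induction I using Finset.induction_on with
    | empty => exact ⟨Embedding.refl L M, by simp⟩
    | insert p I _ ih =>
      obtain ⟨e, ih⟩ := ih
      have : ∃ d : M ↪[L] M, p.1 ≤ p.2 → (∃ x, ∀ a, c (e (d a)) p.1 = x) ∨
          (∃ x, ∀ a, c (e (d a)) p.2 = x) ∨ ∀ a b, a ≠ b → c (e (d a)) p.1 ≠ c (e (d b)) p.2 := by
        rcases lt_trichotomy p.1 p.2 with l | l | l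
        · exact (c2 X (fun a => c (e a) p.1) (fun a => c (e a) p.2) fun a => (c _).strictMono l).imp fun _ x _ => x
        · exact (c1 X fun a => c (e a) p.1).imp fun _ x _ => x.imp_right fun x => Or.inr (l ▸ x)
        · exact ⟨e, fun x => absurd x l.not_ge⟩
      obtain ⟨d, x⟩ := this
      refine ⟨e.comp d, Finset.forall_mem_insert _ _ _ |>.2 ⟨x, fun q m l => ?_⟩⟩
      exact (ih q m l).imp (·.imp fun _ y a => y _) (·.imp (·.imp fun _ y a => y _)
        fun y a b z => y _ _ (d.injective.ne z))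
  obtain ⟨e, he⟩ := this Finset.univ
  refine ⟨(φ.symm.toEmbedding.comp (e.comp φ.toEmbedding)).toHom.range, ⟨(Embedding.equivRange _).symm⟩,
    {x | ∃ i, ∀ a, c (e a) i = x}, ?_⟩
  rintro _ ⟨a, rfl⟩ _ ⟨b, rfl⟩ q
  have q' : φ a ≠ φ b := fun z => q (by rw [φ.injective z])
  change ((φ.symm (e (φ a))).1 : Set X) ∩ (φ.symm (e (φ b))).1 = _
  rw [← hc, ← hc]
  ext x
  refine ⟨fun ⟨⟨i, s⟩, j, t⟩ => ?_, fun ⟨i, s⟩ => ⟨⟨i, s _⟩, i, s _⟩⟩
  rcases le_total i j with l | l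
  · rcases he (i, j) (by simp) l with ⟨y, z⟩ | ⟨y, z⟩ | z
    exacts [⟨i, fun _ => by rw [z, ← s, z]⟩, ⟨j, fun _ => by rw [z, ← t, z]⟩, absurd (s.trans t.symm) (z _ _ q')]
  · rcases he (j, i) (by simp) l with ⟨y, z⟩ | ⟨y, z⟩ | z
    exacts [⟨j, fun _ => by rw [z, ← t, z]⟩, ⟨i, fun _ => by rw [z, ← s, z]⟩, absurd (t.trans s.symm) (z _ _ q'.symm)]

end Pool.Agent.Results.MP_615e1a_lc.Full
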